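import Pool.Agent.H4.SE.Targets

/-!
# Insertion of a point: one letter (MP_45b854_al, module I1)
-/

set_option autoImplicit false

open Finset Equiv

namespace Pool.Agent.H67.SE

open Pool.Agent.H4.SE

theorem pf_I1 : T_I1 := by
  intro r β _ σ o i
  have h1 : ∀ s, o i ≠ some s → ins σ o i (some s) = some (σ i s) := by
    intro s hs
    unfold ins
    rw [Perm.mul_apply, swap_apply_of_ne_of_ne (by simp) (Ne.symm hs)]
    simp
  have h2 : ∀ s, o i = some s → ins σ o i (some s) = none ∧
      ins σ o i none = some (σ i s) := by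
    intro s hs
    unfold ins
    rw [Perm.mul_apply, Perm.mul_apply, hs, swap_apply_right, swap_apply_left]
    simp
  refine ⟨h1, h2, fun s hs => ?_, fun s hs => ⟨?_, ?_⟩⟩
  · rw [Perm.inv_eq_iff_eq]
    exact (h1 s hs).symm
  · rw [Perm.inv_eq_iff_eq]
    exact (h2 s hs).2.symm
  · rw [Perm.inv_eq_iff_eq]
    exact (h2 s hs).1.symm

end Pool.Agent.H67.SE
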