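import Pool.Agent.H4.SE.Targets

/-!
# More pins (MP_45b854_al, module RM)
-/

set_option autoImplicit false

open Finset Equiv
open scoped Classical

namespace Pool.Agent.H67.SE

open Pool.Agent.H4.SE

theorem fibc {Ω Ω' Γ : Type} [Fintype Ω'] [Fintype Γ] (e : Ω' ≃ Ω × Γ) (x : Ω) :
    (univ.filter fun y => (e y).1 = x).card = Fintype.card Γ := by
  rw [← Finset.card_univ]
  apply Finset.card_bij (fun y _ => (e y).2)
  · simp
  · intro a ha b hb h
    rw [mem_filter] at ha hb
    exact e.injective (Prod.ext (ha.2.trans hb.2.symm) h)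
  · intro b _
    exact ⟨e.symm (x, b), by simp, by simp⟩

theorem ent_fst (hEP : T_EP) {Ω Ω' Γ α : Type} [Fintype Ω] [Fintype Ω'] [Fintype Γ] [Nonempty Γ]
    (e : Ω' ≃ Ω × Γ) (f : Ω → α) : ent (fun y => f (e y).1) = ent f :=
  hEP Ω Ω' α (fun y => (e y).1) (Fintype.card Γ) Fintype.card_pos (fibc e) f

theorem ent_congr (hEM : T_EM) {Ω α α' : Type} [Fintype Ω] (f : Ω → α) (g : Ω → α')
    (h : ∀ x y, f x = f y ↔ g x = g y) : ent f = ent g :=
  le_antisymm (hEM Ω α' α g f fun x y => (h x y).2) (hEM Ω α α' f g fun x y => (h x y).1)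

/-- splitting a pin -/
def sp (r k : ℕ) (β : Type) : Om r k β × β ≃ Om r (k + 1) β where
  toFun x := (x.1.1, Fin.cons x.2 x.1.2)
  invFun y := ((y.1, fun m => y.2 m.succ), y.2 0)
  left_inv x := by
    rcases x with ⟨⟨σ, p⟩, c⟩
    simp
  right_inv y := by
    rcases y with ⟨σ, p⟩
    simp only [Prod.mk.injEq, true_and]
    funext m
    refine Fin.cases ?_ (fun i => ?_) m
    · rfl
    · rfl

theorem WQ_sp {r d : ℕ} (T : Fin d → List (Fin r × Bool)) {k : ℕ} {β : Type}
    (x y : Om r k β × β) : WQ T (sp r k β x) = WQ T (sp r k β y) ↔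
      pat T x.1.1 x.2 = pat T y.1.1 y.2 ∧ WQ T x.1 = WQ T y.1 := by
  rcases x with ⟨⟨σ, p⟩, c⟩
  rcases y with ⟨⟨σ', p'⟩, c'⟩
  unfold WQ sp
  simp only [Equiv.coe_fn_mk, Prod.mk.injEq]
  constructor
  · rintro ⟨h1, h2⟩
    refine ⟨by simpa using congrFun h2 0, h1, ?_⟩
    funext m
    simpa using congrFun h2 m.succ
  · rintro ⟨h1, h2, h3⟩
    refine ⟨h2, ?_⟩
    funext m
    refine Fin.cases ?_ (fun i => ?_) m
    · simpa using h1
    · simpa using congrFun h3 i

theorem pf_RM (hEM : T_EM) (hES : T_ES) (hEP : T_EP) : T_RM := by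
  intro r d T k β _ _ _ A
  have hS := hES ((Om r k β × β) × β) (A → β) (Fin d → ℕ → β)
    ((Fin d → Perm β) × (Fin k → Fin d → ℕ → β))
    (fun x => fun a : A => pos T x.1.1.1 x.2 a.1) (fun x => pat T x.1.1.1 x.1.2)
    (fun x => WQ T x.1.1)
  -- the four entropies
  have h2 : ent (fun x : (Om r k β × β) × β => WQ T x.1.1) = AA T k β :=
    ent_fst hEP (Equiv.prodAssoc (Om r k β) β β) (fun ω => WQ T ω)
  have h3 : ent (fun x : (Om r k β × β) × β =>
      ((fun a : A => pos T x.1.1.1 x.2 a.1), WQ T x.1.1)) =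
      ent (fun x : Om r k β × β => (WQ T x.1, fun a : A => pos T x.1.1 x.2 a.1)) := by
    let e : (Om r k β × β) × β ≃ (Om r k β × β) × β :=
      { toFun := fun y => ((y.1.1, y.2), y.1.2)
        invFun := fun y => ((y.1.1, y.2), y.1.2)
        left_inv := fun y => rfl
        right_inv := fun y => rfl }
    rw [← ent_fst hEP e]
    apply ent_congr hEM
    intro x y
    simp only [Prod.mk.injEq]
    exact and_comm
  have h4 : ent (fun x : (Om r k β × β) × β => (pat T x.1.1.1 x.1.2, WQ T x.1.1)) =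
      AA T (k + 1) β := by
    unfold AA
    rw [← ent_fst hEP (Equiv.prodCongr (sp r k β) (Equiv.refl β))]
    apply ent_congr hEM
    intro x y
    simp only [Prod.mk.injEq]
    exact (WQ_sp T x.1 y.1).symm
  have h1 : ent (fun x : (Om r k β × β) × β => ((fun a : A => pos T x.1.1.1 x.2 a.1),
      pat T x.1.1.1 x.1.2, WQ T x.1.1)) =
      ent (fun x : Om r (k + 1) β × β => (WQ T x.1, fun a : A => pos T x.1.1 x.2 a.1)) := by
    rw [← ent_fst hEP ((Equiv.prodCongr (sp r k β) (Equiv.refl β)).trans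
      (Equiv.prodUnique _ Unit).symm)]
    apply ent_congr hEM
    intro x y
    have h := WQ_sp T x.1 y.1
    constructor
    · intro hxy
      rw [Prod.mk.injEq, Prod.mk.injEq] at hxy
      exact Prod.ext (h.2 hxy.2) hxy.1
    · intro hxy
      rw [Prod.mk.injEq] at hxy
      exact Prod.ext hxy.2 (Prod.ext (h.1 hxy.1).1 (h.1 hxy.1).2)
  rw [h1, h2, h3, h4] at hS
  unfold rho
  linarith

end Pool.Agent.H67.SE
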