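import Pool.Agent.H4.SE.Targets

/-!
# The star inequality for rho (MP_45b854_al, module RT)
-/

set_option autoImplicit false

open Finset Equiv

namespace Pool.Agent.H67.SE

open Pool.Agent.H4.SE

theorem pf_RT (hPS : T_PS) (hGK : T_GK) (hRB : T_RB) (hRS : T_RS) (hRI : T_RI) (hRX : T_RX) :
    T_RT := by
  intro r d T κ hκ k β _ _ _
  obtain ⟨h0, hm, hs⟩ := hRB r d T k β
  have h := hPS (Option (Fin d × ℕ)) (Fin d × ℕ) r (VV T) (Ei T) (tl T) (hd T) (rho T k β)
    (Real.log (Fintype.card β)) κ (by unfold VV; exact insert_nonempty _ _)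
    (hRX r d T) (Real.log_natCast_nonneg _) h0 (fun A B hAB _ => hm A B hAB)
    (fun A B _ _ => hs A B) (fun a _ => hRS r d T k β a) (fun i B hB => hRI r d T k β i B hB)
    (hGK r d T κ hκ)
  exact h

end Pool.Agent.H67.SE
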